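import Mathlib

/-! A four-dimensional Hopf algebra with infinitely many two-sided group-like projections. -/

set_option autoImplicit false
set_option linter.unusedSectionVars false

namespace Pool.Agent.Results.MP_2a0e18_al.InfinitelyMany

open scoped TensorProduct Quaternion
open Coalgebra

universe u

/-- `P` is a two-sided group-like projection of the Hopf algebra `A` over `k`: a nonzero idempotent
with `Δ(P)(1 ⊗ P) = P ⊗ P = (1 ⊗ P)Δ(P)` and `Δ(P)(P ⊗ 1) = P ⊗ P = (P ⊗ 1)Δ(P)`. -/
def IsTwoSidedGroupLikeProjection (k : Type u) {A : Type u} [Field k] [Ring A] [HopfAlgebra k A]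
    (P : A) : Prop :=
  P ≠ 0 ∧ P * P = P ∧
    (comul (R := k) P * (1 ⊗ₜ[k] P) = P ⊗ₜ[k] P ∧ (1 ⊗ₜ[k] P) * comul (R := k) P = P ⊗ₜ[k] P) ∧
    (comul (R := k) P * (P ⊗ₜ[k] 1) = P ⊗ₜ[k] P ∧ (P ⊗ₜ[k] 1) * comul (R := k) P = P ⊗ₜ[k] P)

section

variable (k : Type u) [Field k] [CharP k 2]

/-- the restricted enveloping algebra of the two-dimensional non-abelian Lie algebra:
`i^2 = i`, `j^2 = 0`, `i j + j i = j` -/
abbrev U : Type u := ℍ[k,0,1,0]

/-- generators -/
abbrev gi : U k := ⟨0, 1, 0, 0⟩
abbrev gj : U k := ⟨0, 0, 1, 0⟩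
abbrev gk : U k := ⟨0, 0, 0, 1⟩

theorem ii : gi k * gi k = gi k := by ext <;> simp
theorem jj : gj k * gj k = 0 := by ext <;> simp
theorem ij : gi k * gj k = gk k := by ext <;> simp
theorem ji : gj k * gi k = gj k - gk k := by ext <;> simp

variable {k} in
theorem two_zero {M : Type*} [AddCommGroup M] [Module k M] (x : M) : x + x = 0 := by
  have h : (2 : k) = 0 := CharTwo.two_eq_zero
  have : x + x = (2 : k) • x := by rw [two_smul]
  rw [this, h, zero_smul]

/-- comultiplication data -/
noncomputable def bC : QuaternionAlgebra.Basis (U k ⊗[k] U k) (0 : k) 1 0 where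
  i := gi k ⊗ₜ 1 + 1 ⊗ₜ gi k
  j := gj k ⊗ₜ 1 + 1 ⊗ₜ gj k
  k := (gi k ⊗ₜ 1 + 1 ⊗ₜ gi k) * (gj k ⊗ₜ 1 + 1 ⊗ₜ gj k)
  i_mul_i := by
    simp only [add_mul, mul_add, Algebra.TensorProduct.tmul_mul_tmul, one_mul, mul_one, ii,
      zero_smul, one_smul, zero_add]
    have := two_zero (k := k) (gi k ⊗ₜ[k] gi k)
    calc _ = gi k ⊗ₜ[k] 1 + 1 ⊗ₜ[k] gi k + (gi k ⊗ₜ[k] gi k + gi k ⊗ₜ[k] gi k) := by abel
      _ = _ := by rw [this, add_zero]
  j_mul_j := by
    simp only [add_mul, mul_add, Algebra.TensorProduct.tmul_mul_tmul, one_mul, mul_one, jj,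
      zero_smul, TensorProduct.zero_tmul, TensorProduct.tmul_zero, zero_add, add_zero]
    exact two_zero (k := k) (gj k ⊗ₜ[k] gj k)
  i_mul_j := rfl
  j_mul_i := by
    simp only [add_mul, mul_add, Algebra.TensorProduct.tmul_mul_tmul, one_mul, mul_one, ij, ji,
      one_smul, TensorProduct.sub_tmul, TensorProduct.tmul_sub]
    have h1 := two_zero (k := k) (gj k ⊗ₜ[k] gi k)
    have h2 := two_zero (k := k) (gi k ⊗ₜ[k] gj k)
    rw [← sub_eq_zero]
    calc _ = (gj k ⊗ₜ[k] gi k + gj k ⊗ₜ[k] gi k) + (gi k ⊗ₜ[k] gj k + gi k ⊗ₜ[k] gj k) := by abel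
      _ = 0 := by rw [h1, h2, add_zero]

/-- counit data -/
def bE : QuaternionAlgebra.Basis k (0 : k) 1 0 where
  i := 0
  j := 0
  k := 0
  i_mul_i := by simp
  j_mul_j := by simp
  i_mul_j := by simp
  j_mul_i := by simp

/-- comultiplication -/
noncomputable def cm : U k →ₐ[k] U k ⊗[k] U k := (bC k).liftHom
/-- counit -/
def cu : U k →ₐ[k] k := (bE k).liftHom

theorem cm_i : cm k (gi k) = gi k ⊗ₜ 1 + 1 ⊗ₜ gi k := by
  simp [cm, QuaternionAlgebra.Basis.lift, bC]
theorem cm_j : cm k (gj k) = gj k ⊗ₜ 1 + 1 ⊗ₜ gj k := by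
  simp [cm, QuaternionAlgebra.Basis.lift, bC]
theorem cu_i : cu k (gi k) = 0 := by simp [cu, QuaternionAlgebra.Basis.lift, bE]
theorem cu_j : cu k (gj k) = 0 := by simp [cu, QuaternionAlgebra.Basis.lift, bE]

noncomputable instance : Bialgebra k (U k) := Bialgebra.ofAlgHom (cm k) (cu k)
  (by
    apply QuaternionAlgebra.hom_ext
    · show (Algebra.TensorProduct.assoc k k k (U k) (U k) (U k)).toAlgHom
        (Algebra.TensorProduct.map (cm k) (.id k (U k)) (cm k (gi k))) =
        Algebra.TensorProduct.map (.id k (U k)) (cm k) (cm k (gi k))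
      rw [cm_i]
      simp [cm_i, TensorProduct.add_tmul, TensorProduct.tmul_add, Algebra.TensorProduct.one_def, add_assoc]
    · show (Algebra.TensorProduct.assoc k k k (U k) (U k) (U k)).toAlgHom
        (Algebra.TensorProduct.map (cm k) (.id k (U k)) (cm k (gj k))) =
        Algebra.TensorProduct.map (.id k (U k)) (cm k) (cm k (gj k))
      rw [cm_j]
      simp [cm_j, TensorProduct.add_tmul, TensorProduct.tmul_add, Algebra.TensorProduct.one_def, add_assoc])
  (by
    apply QuaternionAlgebra.hom_ext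
    · show Algebra.TensorProduct.map (cu k) (.id k (U k)) (cm k (gi k)) = _
      rw [cm_i]
      simp [cu_i]
    · show Algebra.TensorProduct.map (cu k) (.id k (U k)) (cm k (gj k)) = _
      rw [cm_j]
      simp [cu_j])
  (by
    apply QuaternionAlgebra.hom_ext
    · show Algebra.TensorProduct.map (.id k (U k)) (cu k) (cm k (gi k)) = _
      rw [cm_i]
      simp [cu_i]
    · show Algebra.TensorProduct.map (.id k (U k)) (cu k) (cm k (gj k)) = _
      rw [cm_j]
      simp [cu_j])

theorem comul_eq (x : U k) : comul (R := k) x = cm k x := rfl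
theorem counit_eq (x : U k) : counit (R := k) x = cu k x := rfl

theorem cm_k : cm k (gk k) = gk k ⊗ₜ 1 + gi k ⊗ₜ gj k + gj k ⊗ₜ gi k + 1 ⊗ₜ gk k := by
  rw [← ij, map_mul, cm_i, cm_j]
  simp only [add_mul, mul_add, Algebra.TensorProduct.tmul_mul_tmul, one_mul, mul_one]
  abel

theorem cm_one : cm k 1 = 1 ⊗ₜ 1 := by rw [map_one]; rfl

theorem cu_k : cu k (gk k) = 0 := by rw [← ij, map_mul, cu_i, zero_mul]

/-- antipode -/
def ap : U k →ₗ[k] U k where
  toFun x := ⟨x.re, x.imI, x.imJ + x.imK, -x.imK⟩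
  map_add' x y := by ext <;> simp <;> ring
  map_smul' r x := by ext <;> simp <;> ring

theorem ap_one : ap k 1 = 1 := by ext <;> simp [ap]
theorem ap_i : ap k (gi k) = gi k := by ext <;> simp [ap]
theorem ap_j : ap k (gj k) = gj k := by ext <;> simp [ap]
theorem ap_k : ap k (gk k) = gj k - gk k := by ext <;> simp [ap]

theorem dec (x : U k) : x = x.re • (1 : U k) + x.imI • gi k + x.imJ • gj k + x.imK • gk k := by
  ext <;> simp

theorem lin_ext {M : Type u} [AddCommGroup M] [Module k M] {f g : U k →ₗ[k] M} (h1 : f 1 = g 1)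
    (h2 : f (gi k) = g (gi k)) (h3 : f (gj k) = g (gj k)) (h4 : f (gk k) = g (gk k)) : f = g := by
  ext x
  rw [dec k x]
  simp only [map_add, map_smul, h1, h2, h3, h4]

noncomputable instance : HopfAlgebra k (U k) where
  antipode := ap k
  mul_antipode_rTensor_comul := by
    apply lin_ext
    · show LinearMap.mul' k (U k) ((ap k).rTensor (U k) (cm k 1)) = algebraMap k (U k) (cu k 1)
      rw [cm_one]
      simp [ap_one]
    · show LinearMap.mul' k (U k) ((ap k).rTensor (U k) (cm k (gi k))) =
        algebraMap k (U k) (cu k (gi k))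
      rw [cm_i, cu_i]
      simp only [map_add, LinearMap.rTensor_tmul, LinearMap.mul'_apply, ap_i, ap_one, one_mul,
        mul_one, map_zero]
      exact two_zero (k := k) (gi k)
    · show LinearMap.mul' k (U k) ((ap k).rTensor (U k) (cm k (gj k))) =
        algebraMap k (U k) (cu k (gj k))
      rw [cm_j, cu_j]
      simp only [map_add, LinearMap.rTensor_tmul, LinearMap.mul'_apply, ap_j, ap_one, one_mul,
        mul_one, map_zero]
      exact two_zero (k := k) (gj k)
    · show LinearMap.mul' k (U k) ((ap k).rTensor (U k) (cm k (gk k))) =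
        algebraMap k (U k) (cu k (gk k))
      rw [cm_k, cu_k]
      simp only [map_add, LinearMap.rTensor_tmul, LinearMap.mul'_apply, ap_i, ap_j, ap_k, ap_one,
        one_mul, mul_one, map_zero, ij, ji]
      calc gj k - gk k + gk k + (gj k - gk k) + gk k = gj k + gj k := by abel
        _ = 0 := two_zero (k := k) (gj k)
  mul_antipode_lTensor_comul := by
    apply lin_ext
    · show LinearMap.mul' k (U k) ((ap k).lTensor (U k) (cm k 1)) = algebraMap k (U k) (cu k 1)
      rw [cm_one]
      simp [ap_one]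
    · show LinearMap.mul' k (U k) ((ap k).lTensor (U k) (cm k (gi k))) =
        algebraMap k (U k) (cu k (gi k))
      rw [cm_i, cu_i]
      simp only [map_add, LinearMap.lTensor_tmul, LinearMap.mul'_apply, ap_i, ap_one, one_mul,
        mul_one, map_zero]
      exact two_zero (k := k) (gi k)
    · show LinearMap.mul' k (U k) ((ap k).lTensor (U k) (cm k (gj k))) =
        algebraMap k (U k) (cu k (gj k))
      rw [cm_j, cu_j]
      simp only [map_add, LinearMap.lTensor_tmul, LinearMap.mul'_apply, ap_j, ap_one, one_mul,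
        mul_one, map_zero]
      exact two_zero (k := k) (gj k)
    · show LinearMap.mul' k (U k) ((ap k).lTensor (U k) (cm k (gk k))) =
        algebraMap k (U k) (cu k (gk k))
      rw [cm_k, cu_k]
      simp only [map_add, LinearMap.lTensor_tmul, LinearMap.mul'_apply, ap_i, ap_j, ap_k, ap_one,
        one_mul, mul_one, map_zero, ij, ji]
      calc gk k + gk k + (gj k - gk k) + (gj k - gk k) = gj k + gj k := by abel
        _ = 0 := two_zero (k := k) (gj k)

/-- the projections `1 + i + t j` -/
def P (t : k) : U k := ⟨1, 1, t, 0⟩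

theorem P_proj (t : k) : IsTwoSidedGroupLikeProjection k (P k t) := by
  set u : U k := ⟨0, 1, t, 0⟩ with hu
  have hP : P k t = 1 + u := by ext <;> simp [P, hu]
  have h2 : (2 : k) = 0 := CharTwo.two_eq_zero
  have hu' : u = gi k + t • gj k := by ext <;> simp [hu]
  have huu : u * u = u := by
    ext <;> simp [hu]
  have hcu : comul (R := k) u = u ⊗ₜ[k] 1 + 1 ⊗ₜ[k] u := by
    rw [comul_eq, hu', map_add, map_smul, cm_i, cm_j]
    simp only [TensorProduct.add_tmul, TensorProduct.tmul_add, smul_add, TensorProduct.smul_tmul',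
      TensorProduct.tmul_smul]
    abel
  have hcP : comul (R := k) (P k t) = 1 ⊗ₜ[k] (P k t) + u ⊗ₜ[k] 1 := by
    rw [hP, map_add, hcu, comul_eq, cm_one, TensorProduct.tmul_add]
    abel
  have hcP' : comul (R := k) (P k t) = (P k t) ⊗ₜ[k] 1 + 1 ⊗ₜ[k] u := by
    rw [hP, map_add, hcu, comul_eq, cm_one, TensorProduct.add_tmul]
    abel
  have hPP : P k t * P k t = P k t := by
    rw [hP]
    have := two_zero (k := k) u
    calc (1 + u) * (1 + u) = 1 + u + (u + u * u) := by noncomm_ring
      _ = 1 + u := by rw [huu, this, add_zero]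
  refine ⟨?_, hPP, ⟨?_, ?_⟩, ?_, ?_⟩
  · intro h
    have := congrArg (fun x : U k => x.re) h
    simp [P] at this
  · rw [hcP, add_mul, Algebra.TensorProduct.tmul_mul_tmul, Algebra.TensorProduct.tmul_mul_tmul,
      hPP, one_mul, one_mul, mul_one, ← TensorProduct.add_tmul, ← hP]
  · rw [hcP, mul_add, Algebra.TensorProduct.tmul_mul_tmul, Algebra.TensorProduct.tmul_mul_tmul,
      hPP, one_mul, one_mul, mul_one, ← TensorProduct.add_tmul, ← hP]
  · rw [hcP', add_mul, Algebra.TensorProduct.tmul_mul_tmul, Algebra.TensorProduct.tmul_mul_tmul,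
      hPP, one_mul, one_mul, mul_one, ← TensorProduct.tmul_add, ← hP]
  · rw [hcP', mul_add, Algebra.TensorProduct.tmul_mul_tmul, Algebra.TensorProduct.tmul_mul_tmul,
      hPP, one_mul, one_mul, mul_one, ← TensorProduct.tmul_add, ← hP]

theorem infinite_P [Infinite k] : {p : U k | IsTwoSidedGroupLikeProjection k p}.Infinite := by
  refine Set.infinite_of_injective_forall_mem (f := P k) ?_ (P_proj k)
  intro s t h
  have := congrArg (fun x : U k => x.imJ) h
  simpa [P] using this

end

/-- There are a field `k` and a finite-dimensional Hopf algebra over `k` with infinitely many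
two-sided group-like projections; indeed every infinite field of characteristic two has such a Hopf
algebra, of dimension four. -/
theorem result :
    (∃ (k : Type) (_ : Field k) (A : Type) (_ : Ring A) (_ : HopfAlgebra k A),
      FiniteDimensional k A ∧ {P : A | IsTwoSidedGroupLikeProjection k P}.Infinite) ∧
    ∀ (k : Type u) [Field k] [CharP k 2] [Infinite k],
      ∃ (A : Type u) (_ : Ring A) (_ : HopfAlgebra k A),
        Module.finrank k A = 4 ∧ {P : A | IsTwoSidedGroupLikeProjection k P}.Infinite := by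
  constructor
  · haveI : Infinite (AlgebraicClosure (ZMod 2)) := inferInstance
    haveI : CharP (AlgebraicClosure (ZMod 2)) 2 := inferInstance
    exact ⟨AlgebraicClosure (ZMod 2), inferInstance, U (AlgebraicClosure (ZMod 2)), inferInstance,
      inferInstance, inferInstance, infinite_P _⟩
  · intro k _ _ _
    exact ⟨U k, inferInstance, inferInstance, QuaternionAlgebra.finrank_eq_four _ _ _, infinite_P k⟩

end Pool.Agent.Results.MP_2a0e18_al.InfinitelyMany
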